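import Pool.Agent.H6.RCQ.Stmts5
import Pool.Agent.H12.RCQ.Lower

/-!
# Project RCQ, module LB: the lower bound (from helper12's theorem)
-/

set_option autoImplicit false

namespace Pool.Agent.H28.RCQ.LB

open Pool.Agent.H6.RCQ

theorem lb : LBStmt := by
  intro n m h
  have hnm : (n, m) ≠ (0, 1) := by
    intro e
    have h1 : n = 0 := congrArg Prod.fst e
    have h2 : m = 1 := congrArg Prod.snd e
    omega
  exact Pool.RCQ.Low.lower_all n m hnm

end Pool.Agent.H28.RCQ.LB
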