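import Pool.Agent.H6.RCQ.Stmts5
import Pool.Agent.H3.RCR.Stmts
import Pool.Agent.H67.RCR.A1
import Pool.Agent.H67.RCR.A2
import Pool.Agent.H65.RCR.A21

/-!
# Project RCQ, module SM3: contraction of an arbitrary edge inside a sphere
-/

set_option autoImplicit false

namespace Pool.Agent.H28.RCQ.SM3

open Pool.Agent.H6.RCQ
open Pool.Agent

theorem sm3_aux (hA1 : H3.RCR.A1Stmt) (hA2 : H3.RCR.A2Stmt) (hA21 : H3.RCR.A21Stmt)
    (h1 : SM1Stmt) (h2 : SM2Stmt) : ∀ n : ℕ, ∀ (F : Finset H3.RCR.Tri) (u v : ℕ),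
    (H3.RCR.verts F).card ≤ n → H3.RCR.Sph F → 4 ≤ (H3.RCR.verts F).card → H3.RCR.Adj F u v →
    ∃ F', H3.RCR.Sph F' ∧ H3.RCR.verts F' = (H3.RCR.verts F).erase u ∧
      ∀ a b, H3.RCR.Adj F a b → H3.RCR.sub1 u v a ≠ H3.RCR.sub1 u v b →
        H3.RCR.Adj F' (H3.RCR.sub1 u v a) (H3.RCR.sub1 u v b) := by
  intro n
  induction n with
  | zero => intro F u v hn _ h4; omega
  | succ n ih =>
    intro F u v hn hF h4 huv
    have hne : u ≠ v := hF.adj_ne huv
    by_cases hok : H3.RCR.Ok F u v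
    · obtain ⟨-, hv, -, hadj, -⟩ := hA1 F u v hF.toPre hok
      exact ⟨H3.RCR.contr F u v, hA2 F u v hF hok, hv, fun a b hab hne =>
        (hadj _ _).2 ⟨hne, a, b, hab, rfl, rfl⟩⟩
    · have hdist := (hA21 F hF).1 h4 u v
      obtain ⟨w, hw1, hw2, hw3, hw4⟩ : ∃ w, H3.RCR.Adj F u w ∧ H3.RCR.Adj F v w ∧
          (u, v, w) ∉ F ∧ (v, u, w) ∉ F := by
        by_contra hcon
        apply hok
        refine ⟨huv, fun w hw1 hw2 => ?_, hdist⟩
        by_contra h
        rw [not_or] at h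
        exact hcon ⟨w, hw1, hw2, h.1, h.2⟩
      have hwu : w ≠ u := (hF.adj_ne hw1).symm
      have hwv : w ≠ v := (hF.adj_ne hw2).symm
      obtain ⟨F1, F2, hF1, hF2, hun, hin, c1, c2, hadj, a1, a2, a3, b1, b2, b3⟩ :=
        h2 F u v w hF huv hw2 (hF.adj_symm hw1) hw3 hw4
      have hc3 : ({u, v, w} : Finset ℕ).card = 3 := by
        rw [Finset.card_insert_of_notMem, Finset.card_pair hwv.symm]
        simp only [Finset.mem_insert, Finset.mem_singleton, not_or]
        exact ⟨hne, hwu.symm⟩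
      have hcard := Finset.card_union_add_card_inter (H3.RCR.verts F1) (H3.RCR.verts F2)
      rw [hun, hin, hc3] at hcard
      obtain ⟨G1, hG1, hv1, hd1⟩ := ih F1 u v (by omega) hF1 c1 a1
      obtain ⟨G2, hG2, hv2, hd2⟩ := ih F2 u v (by omega) hF2 c2 b1
      have hsv : H3.RCR.sub1 u v v = v := by
        unfold H3.RCR.sub1
        rw [if_neg hne.symm]
      have hsw : H3.RCR.sub1 u v w = w := by
        unfold H3.RCR.sub1
        rw [if_neg hwu]
      have e1 : H3.RCR.Adj G1 v w := by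
        have := hd1 v w a2 (by rw [hsv, hsw]; exact hwv.symm)
        rwa [hsv, hsw] at this
      have e2 : H3.RCR.Adj G2 v w := by
        have := hd2 v w b2 (by rw [hsv, hsw]; exact hwv.symm)
        rwa [hsv, hsw] at this
      have hint : H3.RCR.verts G1 ∩ H3.RCR.verts G2 = {v, w} := by
        rw [hv1, hv2]
        ext x
        have hx := Finset.ext_iff.1 hin x
        simp only [Finset.mem_inter, Finset.mem_insert, Finset.mem_singleton,
          Finset.mem_erase] at hx ⊢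
        constructor
        · rintro ⟨⟨hxu, hx1⟩, -, hx2⟩
          rcases hx.1 ⟨hx1, hx2⟩ with h | h | h
          · exact absurd h hxu
          · exact Or.inl h
          · exact Or.inr h
        · intro h
          have hxu : x ≠ u := by
            rcases h with h | h
            · rw [h]; exact hne.symm
            · rw [h]; exact hwu
          have h3 := hx.2 (Or.inr h)
          exact ⟨⟨hxu, h3.1⟩, hxu, h3.2⟩
      obtain ⟨G, hG, hvG, g1, g2⟩ := h1 G1 G2 v w hG1 hG2 hint e1 e2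
      refine ⟨G, hG, ?_, fun a b hab hs => ?_⟩
      · rw [hvG, hv1, hv2, ← hun, Finset.erase_union_distrib]
      · rcases hadj a b hab with h | h
        · exact g1 _ _ (hd1 a b h hs)
        · exact g2 _ _ (hd2 a b h hs)

theorem sm3 (h1 : SM1Stmt) (h2 : SM2Stmt) : SM3Stmt := by
  intro F u v hF h4 huv
  exact sm3_aux H3.RCR.a1 H3.RCR.a2 H3.RCR.A21.a21 h1 h2 _ F u v le_rfl hF h4 huv

end Pool.Agent.H28.RCQ.SM3
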