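import Pool.Agent.H6.RCQ.Stmts5

/-!
# Project RCQ, module SM4: minors of spheres with at least three vertices are spanning subgraphs
of spheres
-/

set_option autoImplicit false

namespace Pool.Agent.H28.RCQ.SM4

open Pool.Agent.H6.RCQ
open Pool.Agent
open Pool.Agent.H39.RC
open Relation

/-! ### Connected sets -/

theorem con_image {V W : Type} {G : SimpleGraph V} {H : SimpleGraph W} {S : Set V}
    (hS : Con G S) (g : V → W)
    (hg : ∀ a ∈ S, ∀ b ∈ S, G.Adj a b → g a = g b ∨ H.Adj (g a) (g b)) : Con H (g '' S) := by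
  have key : ∀ a b : S, (G.induce S).Reachable a b →
      (H.induce (g '' S)).Reachable ⟨g a, ⟨a, a.2, rfl⟩⟩ ⟨g b, ⟨b, b.2, rfl⟩⟩ := by
    rintro a b ⟨p⟩
    induction p with
    | nil => exact SimpleGraph.Reachable.refl _
    | @cons u v w h p ih =>
      refine SimpleGraph.Reachable.trans ?_ ih
      rcases hg u u.2 v v.2 h with e | e
      · have : (⟨g u, ⟨u, u.2, rfl⟩⟩ : (g '' S : Set W)) = ⟨g v, ⟨v, v.2, rfl⟩⟩ :=
          Subtype.ext e
        rw [this]
      · exact SimpleGraph.Adj.reachable (by exact e)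
  obtain ⟨⟨s, hs⟩⟩ := hS.nonempty
  have hne : Nonempty (g '' S : Set W) := ⟨⟨g s, ⟨s, hs, rfl⟩⟩⟩
  refine ⟨?_⟩
  rintro ⟨_, a, ha, rfl⟩ ⟨_, b, hb, rfl⟩
  exact key ⟨a, ha⟩ ⟨b, hb⟩ (hS.preconnected _ _)

theorem con_mono {V : Type} {G H : SimpleGraph V} {S : Set V} (hS : Con G S)
    (hg : ∀ a b, G.Adj a b → H.Adj a b) : Con H S := by
  have := con_image (H := H) hS id (fun a _ b _ h => Or.inr (hg a b h))
  rwa [Set.image_id] at this

theorem con_nbr {V : Type} {G : SimpleGraph V} {S : Set V} (hS : Con G S) {x y : V} (hx : x ∈ S)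
    (hy : y ∈ S) (hxy : x ≠ y) : ∃ b ∈ S, G.Adj x b := by
  obtain ⟨p⟩ := hS.preconnected ⟨x, hx⟩ ⟨y, hy⟩
  cases p with
  | nil => exact absurd rfl hxy
  | @cons u v w h p => exact ⟨v, v.2, h⟩

/-! ### The double triangle and adding vertices -/

theorem tri_mem {a b c : ℕ} (t : H3.RCR.Tri) :
    t ∈ H3.RCR.rots (a, b, c) ∪ H3.RCR.rots (a, c, b) ↔
      t = (a, b, c) ∨ t = (b, c, a) ∨ t = (c, a, b) ∨ t = (a, c, b) ∨ t = (c, b, a) ∨
        t = (b, a, c) := by
  rw [Finset.mem_union, H3.RCR.mem_rots, H3.RCR.mem_rots]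
  tauto

theorem tri_verts (a b c : ℕ) :
    H3.RCR.verts (H3.RCR.rots (a, b, c) ∪ H3.RCR.rots (a, c, b)) = {a, b, c} := by
  ext x
  rw [H3.RCR.mem_verts]
  simp only [tri_mem, Prod.mk.injEq, Finset.mem_insert, Finset.mem_singleton]
  constructor
  · rintro ⟨y, z, h | h | h | h | h | h⟩
    all_goals
      first
        | exact Or.inl h.1
        | exact Or.inr (Or.inl h.1)
        | exact Or.inr (Or.inr h.1)
  · rintro (h | h | h)
    · exact ⟨b, c, by simp [h]⟩
    · exact ⟨c, a, by simp [h]⟩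
    · exact ⟨a, b, by simp [h]⟩

theorem tri_sph {a b c : ℕ} (hab : a ≠ b) (hbc : b ≠ c) (hca : c ≠ a) :
    H3.RCR.Sph (H3.RCR.rots (a, b, c) ∪ H3.RCR.rots (a, c, b)) := by
  have hadj : ∀ x y, H3.RCR.Adj (H3.RCR.rots (a, b, c) ∪ H3.RCR.rots (a, c, b)) x y ↔
      (x = a ∧ y = b) ∨ (x = b ∧ y = c) ∨ (x = c ∧ y = a) ∨ (x = a ∧ y = c) ∨
        (x = c ∧ y = b) ∨ (x = b ∧ y = a) := by
    intro x y
    unfold H3.RCR.Adj
    simp only [tri_mem, Prod.mk.injEq]
    constructor
    · rintro ⟨z, h | h | h | h | h | h⟩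
      all_goals
        first
          | exact Or.inl ⟨h.1, h.2.1⟩
          | exact Or.inr (Or.inl ⟨h.1, h.2.1⟩)
          | exact Or.inr (Or.inr (Or.inl ⟨h.1, h.2.1⟩))
          | exact Or.inr (Or.inr (Or.inr (Or.inl ⟨h.1, h.2.1⟩)))
          | exact Or.inr (Or.inr (Or.inr (Or.inr (Or.inl ⟨h.1, h.2.1⟩))))
          | exact Or.inr (Or.inr (Or.inr (Or.inr (Or.inr (⟨h.1, h.2.1⟩)))))
    · rintro (⟨rfl, rfl⟩ | ⟨rfl, rfl⟩ | ⟨rfl, rfl⟩ | ⟨rfl, rfl⟩ | ⟨rfl, rfl⟩ | ⟨rfl, rfl⟩)
      · exact ⟨c, by simp⟩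
      · exact ⟨a, by simp⟩
      · exact ⟨b, by simp⟩
      · exact ⟨b, by simp⟩
      · exact ⟨a, by simp⟩
      · exact ⟨c, by simp⟩
  refine
    { rot := ?_
      ne := ?_
      uniq := ?_
      opp := ?_
      link := ?_
      conn := ?_
      euler := ?_ }
  · intro x y z h
    simp only [tri_mem, Prod.mk.injEq] at h ⊢
    rcases h with h | h | h | h | h | h
    all_goals
      first
        | exact Or.inl ⟨h.2.1, h.2.2, h.1⟩
        | exact Or.inr (Or.inl ⟨h.2.1, h.2.2, h.1⟩)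
        | exact Or.inr (Or.inr (Or.inl ⟨h.2.1, h.2.2, h.1⟩))
        | exact Or.inr (Or.inr (Or.inr (Or.inl ⟨h.2.1, h.2.2, h.1⟩)))
        | exact Or.inr (Or.inr (Or.inr (Or.inr (Or.inl ⟨h.2.1, h.2.2, h.1⟩))))
        | exact Or.inr (Or.inr (Or.inr (Or.inr (Or.inr (⟨h.2.1, h.2.2, h.1⟩)))))
  · intro x y z h
    simp only [tri_mem, Prod.mk.injEq] at h
    rcases h with h | h | h | h | h | h <;> omega
  · intro x y z w h h'
    simp only [tri_mem, Prod.mk.injEq] at h h'
    rcases h with h | h | h | h | h | h <;> rcases h' with h' | h' | h' | h' | h' | h'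
    all_goals
      first
        | exact h.2.2.trans h'.2.2.symm
        | exact absurd (h.1.symm.trans h'.1) hab
        | exact absurd (h.1.symm.trans h'.1) hbc
        | exact absurd (h.1.symm.trans h'.1) hca
        | exact absurd (h'.1.symm.trans h.1) hab
        | exact absurd (h'.1.symm.trans h.1) hbc
        | exact absurd (h'.1.symm.trans h.1) hca
        | exact absurd (h.2.1.symm.trans h'.2.1) hab
        | exact absurd (h.2.1.symm.trans h'.2.1) hbc
        | exact absurd (h.2.1.symm.trans h'.2.1) hca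
        | exact absurd (h'.2.1.symm.trans h.2.1) hab
        | exact absurd (h'.2.1.symm.trans h.2.1) hbc
        | exact absurd (h'.2.1.symm.trans h.2.1) hca
  · intro x y z h
    have h1 : H3.RCR.Adj (H3.RCR.rots (a, b, c) ∪ H3.RCR.rots (a, c, b)) x y := ⟨z, h⟩
    have h2 : H3.RCR.Adj (H3.RCR.rots (a, b, c) ∪ H3.RCR.rots (a, c, b)) y x := by
      rw [hadj] at h1 ⊢
      rcases h1 with h | h | h | h | h | h
      all_goals
        first
          | exact Or.inl ⟨h.2, h.1⟩
          | exact Or.inr (Or.inl ⟨h.2, h.1⟩)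
          | exact Or.inr (Or.inr (Or.inl ⟨h.2, h.1⟩))
          | exact Or.inr (Or.inr (Or.inr (Or.inl ⟨h.2, h.1⟩)))
          | exact Or.inr (Or.inr (Or.inr (Or.inr (Or.inl ⟨h.2, h.1⟩))))
          | exact Or.inr (Or.inr (Or.inr (Or.inr (Or.inr (⟨h.2, h.1⟩)))))
    exact h2
  · intro v y z hy hz
    by_cases hyz : y = z
    · rw [hyz]
    · refine ReflTransGen.single ?_
      rw [hadj] at hy hz
      simp only [tri_mem, Prod.mk.injEq]
      rcases hy with h | h | h | h | h | h <;> rcases hz with h' | h' | h' | h' | h' | h'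
      all_goals
        first
          | exact absurd (h.2.trans h'.2.symm) hyz
          | exact Or.inl ⟨h.1, h.2, h'.2⟩
          | exact Or.inr (Or.inl ⟨h.1, h.2, h'.2⟩)
          | exact Or.inr (Or.inr (Or.inl ⟨h.1, h.2, h'.2⟩))
          | exact Or.inr (Or.inr (Or.inr (Or.inl ⟨h.1, h.2, h'.2⟩)))
          | exact Or.inr (Or.inr (Or.inr (Or.inr (Or.inl ⟨h.1, h.2, h'.2⟩))))
          | exact Or.inr (Or.inr (Or.inr (Or.inr (Or.inr (⟨h.1, h.2, h'.2⟩)))))
          | exact absurd (h.1.symm.trans h'.1) hab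
          | exact absurd (h.1.symm.trans h'.1) hbc
          | exact absurd (h.1.symm.trans h'.1) hca
          | exact absurd (h'.1.symm.trans h.1) hab
          | exact absurd (h'.1.symm.trans h.1) hbc
          | exact absurd (h'.1.symm.trans h.1) hca
  · intro x y hx hy
    rw [tri_verts] at hx hy
    simp only [Finset.mem_insert, Finset.mem_singleton] at hx hy
    by_cases hxy : x = y
    · rw [hxy]
    · refine ReflTransGen.single ?_
      rw [hadj]
      rcases hx with h | h | h <;> rcases hy with h' | h' | h'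
      all_goals
        first
          | exact absurd (h.trans h'.symm) hxy
          | exact Or.inl ⟨h, h'⟩
          | exact Or.inr (Or.inl ⟨h, h'⟩)
          | exact Or.inr (Or.inr (Or.inl ⟨h, h'⟩))
          | exact Or.inr (Or.inr (Or.inr (Or.inl ⟨h, h'⟩)))
          | exact Or.inr (Or.inr (Or.inr (Or.inr (Or.inl ⟨h, h'⟩))))
          | exact Or.inr (Or.inr (Or.inr (Or.inr (Or.inr (⟨h, h'⟩)))))
  · rw [tri_verts]
    have h3 : ({a, b, c} : Finset ℕ).card = 3 := by
      rw [Finset.card_insert_of_notMem, Finset.card_pair hbc]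
      simp only [Finset.mem_insert, Finset.mem_singleton, not_or]
      exact ⟨hab, hca.symm⟩
    have h6 : (H3.RCR.rots (a, b, c) ∪ H3.RCR.rots (a, c, b)).card = 6 := by
      have he : H3.RCR.rots (a, b, c) ∪ H3.RCR.rots (a, c, b) =
          {(a, b, c), (b, c, a), (c, a, b), (a, c, b), (c, b, a), (b, a, c)} := by
        ext t
        rw [tri_mem]
        simp only [Finset.mem_insert, Finset.mem_singleton]
      rw [he]
      rw [Finset.card_insert_of_notMem, Finset.card_insert_of_notMem,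
        Finset.card_insert_of_notMem, Finset.card_insert_of_notMem,
        Finset.card_insert_of_notMem, Finset.card_singleton]
      all_goals
        simp [hab, hbc, hca, hab.symm, hbc.symm, hca.symm]
    rw [h3, h6]

theorem exists_edge {F : Finset H3.RCR.Tri} (hF : H3.RCR.Sph F) : ∃ v w, H3.RCR.Adj F v w := by
  have h : (H3.RCR.verts F).Nonempty := by
    rw [← Finset.card_pos]
    have := hF.euler
    omega
  obtain ⟨v, hv⟩ := h
  obtain ⟨w, hw⟩ := H3.RCR.mem_verts'.1 hv
  exact ⟨v, w, hw⟩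

theorem add_vertex (h1 : SM1Stmt) {F : Finset H3.RCR.Tri} (hF : H3.RCR.Sph F) {x : ℕ}
    (hx : x ∉ H3.RCR.verts F) : ∃ F', H3.RCR.Sph F' ∧ H3.RCR.verts F' = insert x (H3.RCR.verts F) ∧
      ∀ a b, H3.RCR.Adj F a b → H3.RCR.Adj F' a b := by
  obtain ⟨v, w, hvw⟩ := exists_edge hF
  have hv := H3.RCR.Pre.mem_left hvw
  have hw := hF.mem_right hvw
  have hne := hF.adj_ne hvw
  have hxv : x ≠ v := fun h => hx (h ▸ hv)
  have hxw : x ≠ w := fun h => hx (h ▸ hw)
  obtain ⟨G, hG, hvG, g1, -⟩ := h1 F (H3.RCR.rots (v, w, x) ∪ H3.RCR.rots (v, x, w)) v w hF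
    (tri_sph hne hxw.symm hxv) (by
      rw [tri_verts]
      ext y
      simp only [Finset.mem_inter, Finset.mem_insert, Finset.mem_singleton]
      constructor
      · rintro ⟨h2, h3 | h3 | h3⟩
        · exact Or.inl h3
        · exact Or.inr h3
        · exact absurd (h3 ▸ h2) hx
      · rintro (h | h)
        · exact ⟨h ▸ hv, Or.inl h⟩
        · exact ⟨h ▸ hw, Or.inr (Or.inl h)⟩) hvw ⟨x, by rw [tri_mem]; simp⟩
  refine ⟨G, hG, ?_, g1⟩
  rw [hvG, tri_verts]
  ext y
  simp only [Finset.mem_union, Finset.mem_insert, Finset.mem_singleton]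
  constructor
  · rintro (h | h | h | h)
    · exact Or.inr h
    · exact Or.inr (h ▸ hv)
    · exact Or.inr (h ▸ hw)
    · exact Or.inl h
  · rintro (h | h)
    · exact Or.inr (Or.inr (Or.inr h))
    · exact Or.inl h

theorem add_vertices (h1 : SM1Stmt) {F : Finset H3.RCR.Tri} (hF : H3.RCR.Sph F) (T : Finset ℕ) :
    ∃ F', H3.RCR.Sph F' ∧ H3.RCR.verts F ⊆ H3.RCR.verts F' ∧ T ⊆ H3.RCR.verts F' ∧
      ∀ a b, H3.RCR.Adj F a b → H3.RCR.Adj F' a b := by
  induction T using Finset.induction_on with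
  | empty => exact ⟨F, hF, subset_rfl, Finset.empty_subset _, fun _ _ h => h⟩
  | insert x T hxT ih =>
    obtain ⟨F', hF', hv, hT, ha⟩ := ih
    by_cases hx : x ∈ H3.RCR.verts F'
    · exact ⟨F', hF', hv, Finset.insert_subset hx hT, ha⟩
    · obtain ⟨G, hG, hvG, g1⟩ := add_vertex h1 hF' hx
      refine ⟨G, hG, ?_, ?_, fun a b h => g1 a b (ha a b h)⟩
      · rw [hvG]
        exact hv.trans (Finset.subset_insert _ _)
      · rw [hvG]
        exact Finset.insert_subset_insert _ hT

/-! ### Models inside the vertex set -/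

/-- a model of `G` in `F` with all branch sets inside the vertex set of `F` -/
structure Mo {V : Type} (G : SimpleGraph V) (F : Finset H3.RCR.Tri) (Z : V → Set ℕ) : Prop where
  con : ∀ i, Con (FG F) (Z i)
  dis : ∀ i j, i ≠ j → Disjoint (Z i) (Z j)
  adj : ∀ i j, G.Adj i j → ∃ x ∈ Z i, ∃ y ∈ Z j, (FG F).Adj x y
  sub : ∀ i, ∀ x ∈ Z i, x ∈ H3.RCR.verts F

theorem mo_uniq {V : Type} {G : SimpleGraph V} {F : Finset H3.RCR.Tri} {Z : V → Set ℕ}
    (h : Mo G F Z) {i j : V} {x : ℕ} (hi : x ∈ Z i) (hj : x ∈ Z j) : i = j := by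
  by_contra hne
  exact Set.disjoint_left.1 (h.dis i j hne) hi hj

theorem span_aux (h3 : SM3Stmt) {V : Type} (G : SimpleGraph V) (hfin : Finite V)
    (hcV : 3 ≤ Nat.card V) : ∀ n : ℕ, ∀ (F : Finset H3.RCR.Tri) (Z : V → Set ℕ),
    (H3.RCR.verts F).card ≤ n → H3.RCR.Sph F → Mo G F Z → Span G := by
  classical
  intro n
  induction n with
  | zero =>
    intro F Z hn hF _
    have := hF.euler
    omega
  | succ n ih =>
    intro F Z hn hF hZ
    by_cases hA : ∃ a b, H3.RCR.Adj F a b ∧ ∀ i, a ∈ Z i → b ∈ Z i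
    · obtain ⟨a, b, hab, hi⟩ := hA
      have hne : a ≠ b := hF.adj_ne hab
      have haF : a ∈ H3.RCR.verts F := H3.RCR.Pre.mem_left hab
      have hg : ∀ i, ∀ x ∈ Z i, H3.RCR.sub1 a b x ∈ Z i := by
        intro i x hx
        unfold H3.RCR.sub1
        split_ifs with h
        · exact hi i (h ▸ hx)
        · exact hx
      have hga : ∀ x, H3.RCR.sub1 a b x ≠ a := by
        intro x
        unfold H3.RCR.sub1
        split_ifs with h
        · exact hne.symm
        · exact h
      have hge : ∀ i, ∀ x ∈ Z i, H3.RCR.sub1 a b x ∈ (H3.RCR.verts F).erase a := fun i x hx =>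
        Finset.mem_erase.2 ⟨hga x, hZ.sub i _ (hg i x hx)⟩
      have hch : ∀ i, ∃ x, x ∈ Z i := fun i => by
        obtain ⟨⟨x, hx⟩⟩ := (hZ.con i).nonempty
        exact ⟨x, hx⟩
      choose z hz using hch
      have h4 : 4 ≤ (H3.RCR.verts F).card := by
        have hinj : Function.Injective (fun i : V =>
            (⟨H3.RCR.sub1 a b (z i), hge i _ (hz i)⟩ : (H3.RCR.verts F).erase a)) := by
          intro i j hij
          have hij' : H3.RCR.sub1 a b (z i) = H3.RCR.sub1 a b (z j) := by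
            simpa using hij
          exact mo_uniq hZ (hg i _ (hz i)) (hij' ▸ hg j _ (hz j))
        have h5 := Nat.card_le_card_of_injective _ hinj
        have h6 : Nat.card ((H3.RCR.verts F).erase a) = (H3.RCR.verts F).card - 1 := by
          rw [Nat.card_eq_fintype_card, Fintype.card_coe, Finset.card_erase_of_mem haF]
        omega
      obtain ⟨F', hF', hv, hadj⟩ := h3 F a b hF h4 hab
      have hFG : ∀ x y, (FG F).Adj x y → H3.RCR.sub1 a b x = H3.RCR.sub1 a b y ∨
          (FG F').Adj (H3.RCR.sub1 a b x) (H3.RCR.sub1 a b y) := by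
        rintro x y ⟨hxy, h⟩
        by_cases he : H3.RCR.sub1 a b x = H3.RCR.sub1 a b y
        · exact Or.inl he
        · refine Or.inr ⟨he, ?_⟩
          rcases h with h | h
          · exact Or.inl (hadj x y h he)
          · exact Or.inr (hadj y x h (fun e => he e.symm))
      refine ih F' (fun i => H3.RCR.sub1 a b '' Z i) ?_ hF' ⟨?_, ?_, ?_, ?_⟩
      · rw [hv, Finset.card_erase_of_mem haF]
        omega
      · intro i
        exact con_image (hZ.con i) _ (fun x _ y _ h => hFG x y h)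
      · intro i j hij
        rw [Set.disjoint_left]
        rintro _ ⟨x, hx, rfl⟩ ⟨y, hy, hxy⟩
        exact hij (mo_uniq hZ (hg i x hx) (hxy ▸ hg j y hy))
      · intro i j hij
        obtain ⟨x, hx, y, hy, hxy⟩ := hZ.adj i j hij
        refine ⟨_, ⟨x, hx, rfl⟩, _, ⟨y, hy, rfl⟩, ?_⟩
        rcases hFG x y hxy with h | h
        · exfalso
          exact hij.ne (mo_uniq hZ (hg i x hx) (h ▸ hg j y hy))
        · exact h
      · rintro i _ ⟨x, hx, rfl⟩
        rw [hv]
        exact hge i x hx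
    · have hA' : ∀ a b, H3.RCR.Adj F a b → ∃ i, a ∈ Z i ∧ b ∉ Z i := by
        intro a b hab
        by_contra hcon
        apply hA
        refine ⟨a, b, hab, fun i hai => ?_⟩
        by_contra hbi
        exact hcon ⟨i, hai, hbi⟩
      have hch : ∀ i, ∃ x, x ∈ Z i := fun i => by
        obtain ⟨⟨x, hx⟩⟩ := (hZ.con i).nonempty
        exact ⟨x, hx⟩
      choose z hz using hch
      have hsing : ∀ i, ∀ x ∈ Z i, x = z i := by
        intro i x hx
        by_contra hne
        obtain ⟨b, hb, hxb⟩ := con_nbr (hZ.con i) hx (hz i) hne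
        have hab : H3.RCR.Adj F x b := by
          rcases hxb.2 with h | h
          · exact h
          · exact hF.adj_symm h
        obtain ⟨j, hj1, hj2⟩ := hA' x b hab
        have := mo_uniq hZ hx hj1
        rw [this] at hb
        exact hj2 hb
      refine ⟨F, hF, z, fun i j hij => mo_uniq hZ (hz i) (hij ▸ hz j), fun i => hZ.sub i _ (hz i),
        fun x hx => ?_, fun i j hij => ?_⟩
      · obtain ⟨b, hb⟩ := H3.RCR.mem_verts'.1 hx
        obtain ⟨i, hi, -⟩ := hA' x b hb
        exact ⟨i, (hsing i x hi).symm⟩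
      · obtain ⟨x, hx, y, hy, hxy⟩ := hZ.adj i j hij
        rw [hsing i x hx, hsing j y hy] at hxy
        rcases hxy.2 with h | h
        · exact h
        · exact hF.adj_symm h

theorem sm4 (h1 : SM1Stmt) (h3 : SM3Stmt) : SM4Stmt := by
  classical
  intro V G F hfin hcV hF hminor
  obtain ⟨Z, z1, z2, z3⟩ := hminor
  -- the vertices outside F
  have hch : ∀ i, ∃ x, x ∈ Z i := fun i => by
    obtain ⟨⟨x, hx⟩⟩ := (z1 i).nonempty
    exact ⟨x, hx⟩
  choose z hz using hch
  have hout : ∀ i, ∀ x ∈ Z i, x ∈ H3.RCR.verts F ∨ x = z i := by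
    intro i x hx
    by_cases hne : x = z i
    · exact Or.inr hne
    · left
      obtain ⟨b, -, hxb⟩ := con_nbr (z1 i) hx (hz i) hne
      rcases hxb.2 with h | h
      · exact H3.RCR.Pre.mem_left h
      · exact hF.mem_right h
  have hfr : (Set.range z).Finite := Set.finite_range z
  obtain ⟨F', hF', hv, hT, ha⟩ := add_vertices h1 hF hfr.toFinset
  have hle : ∀ a b, (FG F).Adj a b → (FG F').Adj a b := by
    rintro a b ⟨hab, h⟩
    refine ⟨hab, ?_⟩
    rcases h with h | h
    · exact Or.inl (ha _ _ h)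
    · exact Or.inr (ha _ _ h)
  refine span_aux h3 G hfin hcV _ F' Z le_rfl hF' ⟨fun i => con_mono (z1 i) hle, z2, ?_, ?_⟩
  · intro i j hij
    obtain ⟨x, hx, y, hy, hxy⟩ := z3 i j hij
    exact ⟨x, hx, y, hy, hle x y hxy⟩
  · intro i x hx
    rcases hout i x hx with h | h
    · exact hv h
    · exact hT (by rw [Set.Finite.mem_toFinset]; exact ⟨i, h.symm⟩)

end Pool.Agent.H28.RCQ.SM4
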